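import Mathlib
import Pool.Agent.V11103.UnderDefs
import Pool.Agent.V11103.Under

set_option autoImplicit false

open MeasureTheory

namespace Pool.Agent.Results.MP_73c876_an.FunctionButNoSet

open Pool.Agent.V11103

/-- There is a system with an under-recurrent function with values in `[0,1]` in which no set is
under-recurrent. -/
theorem result : ∃ (X : Type) (_ : MeasurableSpace X) (μ : Measure X)
    (_ : IsProbabilityMeasure μ) (T : X → X), MeasurePreserving T μ μ ∧
    (∃ f : X → ℝ, UnderRecurrentFunction μ T f ∧ ∀ x, 0 ≤ f x ∧ f x ≤ 1) ∧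
    ∀ A : Set X, ¬ UnderRecurrentSet μ T A :=
  ⟨_, inferInstance, m1, inferInstance, T1, T1_preserving, ⟨f1, f1_under, f1_mem⟩, m1_no_set⟩

end Pool.Agent.Results.MP_73c876_an.FunctionButNoSet
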